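import Pool.Agent.Helper36.RS.Goals

/-! # RS / JQ (MP_c98eff_gt): solutions of mixed systems are jointly smooth -/

set_option linter.unusedVariables false
set_option linter.unusedSectionVars false

namespace Pool.Agent.Helper89.RS

open Set Filter Topology MeasureTheory Pool.Agent.Helper47.RF Pool.Agent.Helper36.EV
  Pool.Agent.Helper36.RS
open scoped ContDiff

variable {A I J : Type}

/-- the infinite jet -/
noncomputable def jt (z : A → XS) (q : A × List (Fin 3)) : XS := Wd q.2 (z q.1)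

/-- `T` is a universal polynomial in the infinite jet -/
def Pj (T : (A → XS) → XS) : Prop :=
  ∃ p : MvPolynomial (A × List (Fin 3)) ℝ, ∀ z, T z = MvPolynomial.aeval (jt z) p

theorem Pj.add {S T : (A → XS) → XS} (hS : Pj S) (hT : Pj T) : Pj (fun z => S z + T z) := by
  obtain ⟨p, hp⟩ := hS
  obtain ⟨q, hq⟩ := hT
  exact ⟨p + q, fun z => by rw [map_add, ← hp, ← hq]⟩

theorem Pj.mul {S T : (A → XS) → XS} (hS : Pj S) (hT : Pj T) : Pj (fun z => S z * T z) := by
  obtain ⟨p, hp⟩ := hS
  obtain ⟨q, hq⟩ := hT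
  exact ⟨p * q, fun z => by rw [map_mul, ← hp, ← hq]⟩

theorem Pj.sum {ι : Type} (s : Finset ι) {S : ι → (A → XS) → XS} (hS : ∀ i ∈ s, Pj (S i)) :
    Pj (fun z => ∑ i ∈ s, S i z) := by
  classical
  induction s using Finset.induction_on with
  | empty => exact ⟨0, fun z => by simp⟩
  | insert a s ha ih =>
    have h1 := (hS a (Finset.mem_insert_self a s)).add
      (ih fun i hi => hS i (Finset.mem_insert_of_mem hi))
    obtain ⟨p, hp⟩ := h1
    exact ⟨p, fun z => by beta_reduce; rw [Finset.sum_insert ha, ← hp z]⟩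

theorem Pj.base (a : A) : Pj (fun z : A → XS => z a) :=
  ⟨MvPolynomial.X (a, []), fun z => by rw [MvPolynomial.aeval_X]; rfl⟩

theorem Pj.comp {Y : Type} {g : Y → (A → XS) → XS} (hg : ∀ y, Pj (g y)) (p : MvPolynomial Y ℝ) :
    Pj (fun z => MvPolynomial.aeval (fun y => g y z) p) := by
  choose q hq using hg
  refine ⟨MvPolynomial.bind₁ q p, fun z => ?_⟩
  have h : (fun y => g y z) = fun y => MvPolynomial.aeval (jt z) (q y) := funext fun y => hq y z
  beta_reduce
  rw [h, MvPolynomial.aeval_bind₁]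

theorem Ed_poly (i : Fin 3) (p : MvPolynomial (A × List (Fin 3)) ℝ) :
    Pj (fun z => Ed i (MvPolynomial.aeval (jt z) p)) := by
  induction p using MvPolynomial.induction_on with
  | C a =>
    refine ⟨0, fun z => ?_⟩
    beta_reduce
    rw [MvPolynomial.aeval_C, Derivation.map_algebraMap, map_zero]
  | add p q hp hq =>
    obtain ⟨r, hr⟩ := hp.add hq
    exact ⟨r, fun z => by beta_reduce; rw [map_add, map_add, ← hr z]⟩
  | mul_X p q hp =>
    obtain ⟨p', hp'⟩ := hp
    refine ⟨p * MvPolynomial.X (q.1, i :: q.2) + MvPolynomial.X q * p', fun z => ?_⟩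
    beta_reduce at hp' ⊢
    rw [map_mul, Derivation.leibniz, map_add, map_mul, map_mul, ← hp' z, MvPolynomial.aeval_X,
      MvPolynomial.aeval_X, smul_eq_mul, smul_eq_mul]
    rfl

theorem Pj.Ed {T : (A → XS) → XS} (hT : Pj T) (i : Fin 3) :
    Pj (fun z => Pool.Agent.Helper36.RS.Ed i (T z)) := by
  obtain ⟨p, hp⟩ := hT
  obtain ⟨q, hq⟩ := Ed_poly i p
  exact ⟨q, fun z => by beta_reduce; rw [hp z]; exact hq z⟩

theorem Pj.Wd {T : (A → XS) → XS} (hT : Pj T) (w : List (Fin 3)) :
    Pj (fun z => Pool.Agent.Helper36.RS.Wd w (T z)) := by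
  induction w with
  | nil => exact hT
  | cons i w ih => exact ih.Ed i

theorem FF_poly (D : QLD I J) (a : I ⊕ J) : Pj (fun z : I ⊕ J → XS => D.FF z a) := by
  have hz : ∀ b : I ⊕ ((Fin 3 × I) ⊕ J), Pj (fun z : I ⊕ J → XS =>
      zj (fun i => z (Sum.inl i)) (fun j => z (Sum.inr j)) b) := by
    intro b
    rcases b with i | ⟨p⟩ | j
    · exact Pj.base (Sum.inl i)
    · exact (Pj.base (Sum.inl p.2)).Ed p.1
    · exact Pj.base (Sum.inr j)
  have hz' : ∀ b : (I ⊕ ((Fin 3 × I) ⊕ J)) ⊕ (Fin 3 × J), Pj (fun z : I ⊕ J → XS =>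
      zj' (fun i => z (Sum.inl i)) (fun j => z (Sum.inr j)) b) := by
    intro b
    rcases b with b | p
    · exact hz b
    · exact (Pj.base (Sum.inr p.2)).Ed p.1
  rcases a with i | j
  · refine Pj.comp (g := fun b (z : I ⊕ J → XS) =>
      (Sum.elim (fun i => z (Sum.inl i)) (fun j => z (Sum.inr j)) : I ⊕ J → XS) b) (fun b => ?_) _
    rcases b with i | j
    · exact Pj.base (Sum.inl i)
    · exact Pj.base (Sum.inr j)
  · refine Pj.add (Pj.sum Finset.univ fun i _ => ?_) (Pj.comp hz' _)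
    refine Pj.Ed (Pj.add (Pj.sum Finset.univ fun k _ => ?_) (Pj.comp hz _)) i
    refine Pj.mul (Pj.comp (fun i => Pj.base (Sum.inl i)) _) ((Pj.base (Sum.inr j)).Ed k)

theorem jq : G_JQ := by
  intro hjs hsob hcv I J _ _ D τ u v hu hv
  set y : ℝ → I ⊕ J → XS := fun t => Sum.elim (u t) (v t) with hy
  have hfam : ∀ a : I ⊕ J, SmFam1 (Icc 0 τ) (fun t => (y t a).1) (fun t => (D.FF (y t) a).1) := by
    intro a
    rcases a with i | j
    · exact hcv hsob τ _ _ (hu i)
    · exact hcv hsob τ _ _ (hv j)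
  set P : Set (ℝ → XS) := {f | ∃ p : MvPolynomial ((I ⊕ J) × List (Fin 3)) ℝ,
    ∀ t, f t = MvPolynomial.aeval (jt (y t)) p} with hP
  have h1 : ∀ f ∈ P, ContinuousOn (fun p : ℝ × HH => (f p.1).1 p.2) (Ioo 0 τ ×ˢ {0}ᶜ) := by
    rintro f ⟨p, hp⟩
    have hf : f = fun t => MvPolynomial.aeval (jt (y t)) p := funext hp
    rw [hf]
    clear hp hf
    induction p using MvPolynomial.induction_on with
    | C a =>
      simp only [MvPolynomial.aeval_C]
      exact continuousOn_const
    | add p q hp hq =>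
      have h := hp.add hq
      refine h.congr fun x hx => ?_
      simp only [map_add]
      rfl
    | mul_X p q hp =>
      have hq : ContinuousOn (fun p : ℝ × HH => (jt (y p.1) q).1 p.2) (Ioo 0 τ ×ˢ {0}ᶜ) := by
        have h3 := ((hfam q.1).fam.cont q.2).mono (prod_mono_left (t := {0}ᶜ) Ioo_subset_Icc_self)
        refine h3.congr fun x hx => ?_
        simp only [jt]
        rw [Wd_val]
      have h := hp.mul hq
      refine h.congr fun x hx => ?_
      simp only [map_mul, MvPolynomial.aeval_X]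
      rfl
  have h2 : ∀ f ∈ P, ∀ i, (fun t => Ed i (f t)) ∈ P := by
    rintro f ⟨p, hp⟩ i
    obtain ⟨q, hq⟩ := Ed_poly i p
    exact ⟨q, fun t => by beta_reduce; rw [hp t]; exact hq (y t)⟩
  have h3 : ∀ f ∈ P, ∃ f' ∈ P, ∀ x ≠ 0, ∀ t ∈ Ioo 0 τ,
      HasDerivAt (fun s => (f s).1 x) ((f' t).1 x) t := by
    rintro f ⟨p, hp⟩
    have hf : f = fun t => MvPolynomial.aeval (jt (y t)) p := funext hp
    rw [hf]
    clear hp hf
    induction p using MvPolynomial.induction_on with
    | C a =>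
      refine ⟨fun t => 0, ⟨0, fun t => by beta_reduce; rw [map_zero]⟩, fun x hx t ht => ?_⟩
      simp only [MvPolynomial.aeval_C]
      exact hasDerivAt_const _ _
    | add p q hp hq =>
      obtain ⟨f', ⟨p', hp'⟩, hf'⟩ := hp
      obtain ⟨g', ⟨q', hq'⟩, hg'⟩ := hq
      refine ⟨fun t => f' t + g' t, ⟨p' + q', fun t => by beta_reduce; rw [map_add, ← hp', ← hq']⟩,
        fun x hx t ht => ?_⟩
      have h := (hf' x hx t ht).add (hg' x hx t ht)
      simp only [map_add]
      exact h
    | mul_X p q hp =>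
      obtain ⟨f', ⟨p', hp'⟩, hf'⟩ := hp
      obtain ⟨r, hr⟩ := (FF_poly D q.1).Wd q.2
      refine ⟨fun t => f' t * jt (y t) q + MvPolynomial.aeval (jt (y t)) p *
        MvPolynomial.aeval (jt (y t)) r, ⟨p' * MvPolynomial.X q + p * r, fun t => by
          beta_reduce
          rw [map_add, map_mul, map_mul, ← hp', MvPolynomial.aeval_X]⟩, fun x hx t ht => ?_⟩
      have hd : HasDerivAt (fun s => (jt (y s) q).1 x) ((MvPolynomial.aeval (jt (y t)) r).1 x) t := by
        have h4 := (hfam q.1).der q.2 x hx t (Ioo_subset_Icc_self ht)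
        have h5 := h4.hasDerivAt (Icc_mem_nhds ht.1 ht.2)
        rw [← hr (y t), Wd_val]
        refine h5.congr_of_eventuallyEq (Eventually.of_forall fun s => ?_)
        simp only [jt]
        rw [Wd_val]
      have h := (hf' x hx t ht).mul hd
      simp only [map_mul, MvPolynomial.aeval_X]
      exact h
  have key := hjs 0 τ P h1 h2 h3
  refine ⟨fun i => ?_, fun j => ?_⟩
  · exact key (fun t => u t i) ⟨MvPolynomial.X (Sum.inl i, []), fun t => by
      rw [MvPolynomial.aeval_X]; rfl⟩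
  · exact key (fun t => v t j) ⟨MvPolynomial.X (Sum.inr j, []), fun t => by
      rw [MvPolynomial.aeval_X]; rfl⟩

end Pool.Agent.Helper89.RS
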